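import Pool.Agent.MFE.FIN
import Pool.Agent.MFE.ROB

/-!
# The exact global bifurcation diagram of the mean field equation on thin ellipses

For all sufficiently small `α > 0` the solutions of the Dirichlet mean field problem
`-Δu = λ e^u / ∫ e^u`, `λ ≥ 0`, on `Ell α = {α² x² + y² < 1}` form one smooth curve, parametrised by the
amplitude `p = u(0,0) ∈ [0, ∞)`, with exactly one bending point, no bifurcation point, and its end is
the blow-up branch: `λ → 8π` from above, the densities tend to the Dirac mass at the origin, which is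
a critical point of the Robin function.
-/

open scoped ContDiff BoundedContinuousFunction
open Filter Topology Pool.Agent.MFE

namespace Pool.Agent.Results.MP_a23ab4_an.ThinEllipses

private theorem bdd {α : ℝ} (hα : 0 < α) : Bornology.IsBounded (Ell α) := by
  rw [Metric.isBounded_iff_subset_closedBall (0 : ℝ × ℝ)]
  refine ⟨max (1 / α) 1, fun q hq => ?_⟩
  have h : α ^ 2 * q.1 ^ 2 + q.2 ^ 2 < 1 := hq
  have h1 : (α * q.1) ^ 2 ≤ 1 := by nlinarith [sq_nonneg q.2]
  have h2 : q.2 ^ 2 ≤ 1 := by nlinarith [sq_nonneg (α * q.1)]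
  have h3 := (sq_le_one_iff_abs_le_one _).1 h1
  have h4 := (sq_le_one_iff_abs_le_one _).1 h2
  rw [abs_mul, abs_of_pos hα] at h3
  rw [mem_closedBall_zero_iff, Prod.norm_def]
  refine max_le_max ?_ h4
  rw [Real.norm_eq_abs, le_div_iff₀ hα]
  linarith

private theorem lap0 (q : ℝ × ℝ) : lap (fun _ : ℝ × ℝ => (0 : ℝ)) q = 0 := by
  have h1 : dx (fun _ : ℝ × ℝ => (0 : ℝ)) = fun _ => 0 := by funext z; simp [dx]
  have h2 : dy (fun _ : ℝ × ℝ => (0 : ℝ)) = fun _ => 0 := by funext z; simp [dy]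
  rw [lap, h1, h2, h1, h2, add_zero]

private theorem zero_le {α : ℝ} (hα : 0 < α) {u : ℝ × ℝ → ℝ} (hc : ContinuousOn u (closure (Ell α)))
    (h2 : ContDiffOn ℝ 2 u (Ell α)) (hb : ∀ q ∈ frontier (Ell α), u q = 0)
    (hl : ∀ q ∈ Ell α, lap u q = 0) : ∀ q ∈ closure (Ell α), u q ≤ 0 := by
  exact wmp_bdd (isOpen_ell α) (bdd hα) (b := fun _ => 0) h2 contDiffOn_const hc
    continuousOn_const (fun q hq => by rw [hl q hq, lap0 q]) fun q hq => (hb q hq).le

/-- for `λ = 0` there is only the zero solution -/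
private theorem mf_zero {α : ℝ} (hα : 0 < α) {u : ℝ × ℝ → ℝ} :
    MFSol α 0 u ↔ ∀ q ∈ closure (Ell α), u q = 0 := by
  have hO := isOpen_ell α
  constructor
  · intro h q hq
    have hl : ∀ q ∈ Ell α, lap u q = 0 := fun q hq => by
      have := h.eq q hq
      rw [zero_mul] at this
      linarith
    refine le_antisymm (zero_le hα h.cont h.c2 h.bd hl q hq) ?_
    have hn : ∀ q ∈ Ell α, lap (fun z => (-1) * u z) q = 0 := fun q hq => by
      rw [lap_const_mul hO (-1) h.c2 hq, hl q hq, mul_zero]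
    have := zero_le hα (u := fun z => (-1) * u z) (continuousOn_const.mul h.cont)
      (contDiffOn_const.mul h.c2) (fun q hq => by rw [h.bd q hq, mul_zero]) hn q hq
    linarith
  · intro h
    have hi : ∀ q ∈ Ell α, u q = (fun _ => (0 : ℝ)) q := fun q hq => h q (subset_closure hq)
    refine ⟨continuousOn_const.congr h, contDiffOn_const.congr hi,
      fun q hq => h q (frontier_subset_closure hq), fun q hq => ?_⟩
    rw [lap_congr hO hi hq, lap0, zero_mul, neg_zero]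

theorem result : ∃ α₀ : ℝ, 0 < α₀ ∧ ∀ α : ℝ, 0 < α → α < α₀ →
    (∃ (lam : ℝ → ℝ) (U : ℝ → ((ℝ × ℝ) →ᵇ ℝ)) (pc : ℝ), 0 < pc ∧
      -- a smooth curve starting at `(0, 0)`, parametrised by the amplitude
      ContDiffOn ℝ ∞ lam (Set.Ici 0) ∧ ContDiffOn ℝ ∞ U (Set.Ici 0) ∧ lam 0 = 0 ∧ U 0 = 0 ∧
      (∀ p, 0 ≤ p → U p (0, 0) = p ∧ ∀ q, 0 ≤ U p q ∧ U p q ≤ p ∧ (q ∉ Ell α → U p q = 0)) ∧
      -- its points are exactly all solutions with `λ ≥ 0`
      (∀ (l : ℝ) (u : ℝ × ℝ → ℝ), 0 ≤ l → (MFSol α l u ↔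
        ∃ p, 0 ≤ p ∧ l = lam p ∧ ∀ q ∈ closure (Ell α), u q = U p q)) ∧
      (∀ p, 0 < p → 0 < lam p) ∧
      -- exactly one bending point
      (∀ p, 0 < p → p < pc → 0 < deriv lam p) ∧ deriv lam pc = 0 ∧ deriv (deriv lam) pc < 0 ∧
      (∀ p, pc < p → deriv lam p < 0) ∧
      -- the end of the branch is the blow-up branch
      (∀ p, pc ≤ p → 8 * Real.pi < lam p) ∧ Tendsto lam atTop (𝓝 (8 * Real.pi)) ∧
      ∀ f : (ℝ × ℝ) →ᵇ ℝ, Tendsto (fun p => (∫ z in Ell α, Real.exp (U p z) * f z) /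
        ∫ z in Ell α, Real.exp (U p z)) atTop (𝓝 (f (0, 0)))) ∧
    -- the origin is a critical point of the Robin function
    (∃ H, IsReg α H) ∧
    ∀ H, IsReg α H → HasFDerivAt (fun p => H p p) (0 : ℝ × ℝ →L[ℝ] ℝ) (0, 0) := by
  obtain ⟨α₁, hα₁, h⟩ := final
  refine ⟨min α₁ 1, lt_min hα₁ one_pos, fun α hα hlt => ?_⟩
  have hα1 : α ≤ 1 := (hlt.trans_le (min_le_right _ _)).le
  obtain ⟨lam, U, pc, hpc, s1, s2, s3, s4, s5, s6, s7, s8⟩ := h α hα (hlt.trans_le (min_le_left _ _))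
  refine ⟨⟨lam, U, pc, hpc, s1, s2, s3, s4, ?_, ?_, s7, s8⟩, reg_exists hα hα1,
    fun H hH => robin_crit hα hα1 hH⟩
  · intro p hp
    rcases hp.eq_or_lt with rfl | hp
    · rw [s4]
      exact ⟨rfl, fun q => ⟨le_rfl, le_rfl, fun _ => rfl⟩⟩
    · exact s5 p hp
  · intro l u hl
    rcases hl.eq_or_lt with rfl | hl
    · rw [mf_zero hα]
      constructor
      · intro hu
        exact ⟨0, le_rfl, s3.symm, fun q hq => by rw [hu q hq, s4]; rfl⟩
      · rintro ⟨p, hp, h1, h2⟩ q hq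
        rcases hp.eq_or_lt with rfl | hp
        · rw [h2 q hq, s4]; rfl
        · exact absurd (s7 p hp) (by rw [← h1]; exact lt_irrefl _)
    · rw [s6 l u hl]
      constructor
      · rintro ⟨p, hp, h1, h2⟩
        exact ⟨p, hp.le, h1, h2⟩
      · rintro ⟨p, hp, h1, h2⟩
        rcases hp.eq_or_lt with rfl | hp
        · rw [s3] at h1
          exact absurd hl (by rw [h1]; exact lt_irrefl _)
        · exact ⟨p, hp, h1, h2⟩

end Pool.Agent.Results.MP_a23ab4_an.ThinEllipses
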